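import Pool.Agent.Results.MP_83e36b_nt.DoubleCoversOfProducts
import Pool.Agent.K6.H43.MZC.Gen

/-!
# Mazur's conjecture on the components of the closure of the rational points: double covers of
# products of projective spaces

Let `X` be the double cover `w² = f(x₁, …, x_r)` of `ℙ^{n₁} × … × ℙ^{n_r}`, `n_i ≥ 1`, over `ℚ`, where
`f` has the degree `d_i ∈ {2, 4}` in the variables of the `i`-th factor. We suppose that some factor
has `d_k = 2` or `n_k ≥ 2` (so `X` is rationally connected if it is smooth), that `f` is
irreducible, and that for each `i` the form in the variables of the `i`-th factor, which one gets by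
inserting the other coordinates of a point `x` in `f`, is smooth for some `x`. The new examples
are those which are not Fano varieties, for example the fibrations in del Pezzo surfaces of degree
two `w² = f(x, t)`, `x ∈ ℙ²`, `t ∈ ℙ¹`, of bidegree `(4, 4)`.

**Theorem.** There is a polynomial `N ≠ 0` over `ℚ` such that Mazur's conjecture is true for the
open subvariety `w N(x) ≠ 0` of the cone over `X`, for all its open subvarieties, and for their
images under rational maps: the closure of the set of the values of rational functions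
`p₁/q, …, p_m/q` at its rational points has only finitely many connected components. The same holds
for the products of several such varieties and affine spaces. (With the functions
`x_{i,j} / x_{i,0}` and `w / ∏ x_{i,0} ^ (d_i / 2)` one gets the affine charts of `X`, and with the
additional function `1 / g` their open subvarieties `g ≠ 0` as closed subvarieties of affine
space.)

Method. By the theorem `MP_83e36b_nt.DoubleCoversOfProducts` of helper96 there is `N`, such that the closure of `X(ℚ)` in
`X(ℝ) × X(ℚ₂)` is open outside of `N = 0`. Let `V` be the complement of `w N = 0` in the cone over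
`X`. So the closure `C` of `V(ℚ)` in `V(ℝ) × V(ℚ₂)` is open and closed. For a rational point `P` of
`V` the set of the real points `x` with `(x, P) ∈ C` is open and closed in `V(ℝ)` and contains `P`.
As `V(ℝ)` has only finitely many open and closed subsets, the closure of `V(ℚ)` in `V(ℝ)` is a
finite union of such sets: it is a union of connected components of `V(ℝ)`. In particular it is
semialgebraic over `ℚ` (`Pool.Agent.TH729.SQ`, helper729), and the theorem follows by means of the
theorem on the values of rational functions of the same library.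
-/

set_option autoImplicit false

namespace Pool.Agent.Results.MP_4d3b00_ag.DoubleCoversOfProducts

open MvPolynomial Filter Topology Pool.Agent.Results.MP_83e36b_nt.DoubleCoversOfProducts

/-- The conditions on the branch divisor `f = 0`: it is irreducible, of multidegree `d`, and
for each `i` the form in the variables of the `i`-th factor is smooth for some point `x`. -/
structure Admissible {r : ℕ} {n : Fin r → ℕ} (d : Fin r → ℕ) (f : MvPolynomial (Vars n) ℚ) :
    Prop where
  /-- the degree -/
  degree : MultiHomogeneous d f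
  /-- the form is irreducible -/
  irreducible : Irreducible f
  /-- smooth restrictions -/
  smooth : ∀ i, ∃ x : Vars n → ℚ, SmoothForm (restriction f x i)

/-- The rational points `(x, w)` of the affine cone `w² = f(x)` over the double cover with `w ≠ 0`
and `N(x) ≠ 0`; the coordinate `none` is `w`. -/
def points {α : Type} (f N : MvPolynomial α ℚ) : Set (Option α → ℚ) :=
  {P | OnCover f (fun a => P (some a), P none) ∧ P none ≠ 0 ∧ eval (fun a => P (some a)) N ≠ 0}

/-- The real points which are the values of the rational functions `p_k / q` at the points of the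
product of the sets `D j` and of an affine space. -/
def values {J κ γ : Type} (D : J → Set (γ → ℚ)) {m : ℕ}
    (p : Fin m → MvPolynomial ((J × γ) ⊕ κ) ℚ) (q : MvPolynomial ((J × γ) ⊕ κ) ℚ) :
    Set (Fin m → ℝ) :=
  {y | ∃ (x : J → γ → ℚ) (t : κ → ℚ), (∀ j, x j ∈ D j) ∧
    eval (Sum.elim (fun c => x c.1 c.2) t) q ≠ 0 ∧
    ∀ k, y k = ((eval (Sum.elim (fun c => x c.1 c.2) t) (p k) /
      eval (Sum.elim (fun c => x c.1 c.2) t) q : ℚ) : ℝ)}

lemma sa_points {α : Type} [Fintype α] (f N : MvPolynomial α ℚ) (h : OpenOutside f N) :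
    Pool.Agent.H581R2.SA (closure (Pool.Agent.TH729.SQ.rl (points f N))) := by
  have hfact : Fact (Nat.Prime 2) := ⟨Nat.prime_two⟩
  let σ : Unit → ℚ →+* ℚ_[2] := fun _ => Rat.castHom ℚ_[2]
  let τ : ℚ →+* ℝ := Rat.castHom ℝ
  -- the equation and the divisor in the coordinates `Option α`
  let f' : MvPolynomial (Option α) ℚ := X none ^ 2 - rename some f
  let N' : MvPolynomial (Option α) ℚ := X none * rename some N
  have hf' : ∀ (F : Type) [Field F] (φ : ℚ →+* F) (P : Option α → F),
      eval P (map φ f') = 0 ↔ OnCover (map φ f) (fun a => P (some a), P none) := by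
    intro F _ φ P
    unfold OnCover
    simp only [f', map_sub, map_pow, map_X, eval_X, map_rename, eval_rename]
    exact sub_eq_zero
  have hN' : ∀ (F : Type) [Field F] (φ : ℚ →+* F) (P : Option α → F),
      eval P (map φ N') ≠ 0 ↔ P none ≠ 0 ∧ eval (fun a => P (some a)) (map φ N) ≠ 0 := by
    intro F _ φ P
    simp only [N', map_mul, map_X, eval_X, map_rename, eval_rename]
    exact mul_ne_zero_iff
  have hpts : points f N = {r | eval r f' = 0 ∧ eval r N' ≠ 0} := by
    ext r
    have e1 := hf' ℚ (RingHom.id ℚ) r
    have e2 := hN' ℚ (RingHom.id ℚ) r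
    rw [MvPolynomial.map_id, MvPolynomial.map_id] at e1 e2
    simp only [points, Set.mem_ofPred_eq, e1, e2]
  have hτ : ∀ {β : Type} (x : β → ℝ) (g : MvPolynomial β ℚ), aeval x g = eval x (map τ g) := by
    intro β x g
    rw [eval_map]
    rfl
  let j : (Option α → ℚ) → (Option α → ℚ_[2]) := fun P c => (P c : ℚ_[2])
  have hj : ∀ (P : Option α → ℚ) (g : MvPolynomial (Option α) ℚ),
      eval (j P) (map (Rat.castHom ℚ_[2]) g) = ((eval P g : ℚ) : ℚ_[2]) := by
    intro P g
    exact (MvPolynomial.map_eval (Rat.castHom ℚ_[2]) P g).symm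
  rw [hpts]
  refine Pool.Agent.K6.H43.MZC.sa_of_open f' N' j ?_
  intro x P hP hPN hxC hxN
  let Φ : (Option α → ℝ) × (Option α → ℚ_[2]) →
      ((α → ℝ) × ℝ) × (Unit → (α → ℚ_[2]) × ℚ_[2]) :=
    fun s => ((fun a => s.1 (some a), s.1 none), fun _ => (fun a => s.2 (some a), s.2 none))
  let Ψ : ((α → ℝ) × ℝ) × (Unit → (α → ℚ_[2]) × ℚ_[2]) →
      (Option α → ℝ) × (Option α → ℚ_[2]) :=
    fun s => (fun o => o.elim s.1.2 s.1.1, fun o => o.elim (s.2 ()).2 (s.2 ()).1)
  have hΦ : Continuous Φ := by fun_prop
  have hΨ : Continuous Ψ := by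
    refine Continuous.prodMk (continuous_pi fun o => ?_) (continuous_pi fun o => ?_)
    · rcases o with _ | a
      · exact continuous_fst.snd
      · exact (continuous_apply a).comp continuous_fst.fst
    · have h0 : Continuous fun s : ((α → ℝ) × ℝ) × (Unit → (α → ℚ_[2]) × ℚ_[2]) => s.2 () :=
        (continuous_apply ()).comp continuous_snd
      rcases o with _ | a
      · exact h0.snd
      · exact (continuous_apply a).comp h0.fst
  have hΨΦ : ∀ s, Ψ (Φ s) = s := by
    rintro ⟨s, t⟩
    refine Prod.ext ?_ ?_
    · funext o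
      rcases o with _ | a <;> rfl
    · funext o
      rcases o with _ | a <;> rfl
  have h1 : Φ (x, j P) ∈ ClosureReal (p := fun _ : Unit => 2) f σ τ := by
    refine map_mem_closure hΦ hxC ?_
    rintro _ ⟨r, hr, rfl⟩
    refine ⟨(fun a => r (some a), r none), ?_, rfl⟩
    have e1 := hf' ℚ (RingHom.id ℚ) r
    rw [MvPolynomial.map_id, MvPolynomial.map_id] at e1
    exact e1.1 hr
  have hPN2 : (Φ (x, j P)).2 () = (Φ (x, j P)).2 () := rfl
  obtain ⟨U, hU, h2⟩ := (h Unit (fun _ => 2) (fun _ _ _ => rfl) σ).2 τ (Φ (x, j P)) h1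
    (by
      rw [hτ] at hxN
      exact (hN' ℝ τ x).1 hxN)
    (fun _ => by
      refine (hN' ℚ_[2] (Rat.castHom ℚ_[2]) (j P)).1 ?_
      rw [hj]
      exact_mod_cast hPN)
  have h3 : ∀ᶠ x' in 𝓝 x, Φ (x', j P) ∈ U := by
    have hc : Continuous fun x' : Option α → ℝ => Φ (x', j P) := by fun_prop
    exact hc.continuousAt.eventually hU
  filter_upwards [h3] with x' hx' hfx'
  have h4 : Φ (x', j P) ∈ ClosureReal (p := fun _ : Unit => 2) f σ τ := by
    refine h2 _ hx' ?_ fun _ => ?_
    · rw [hτ] at hfx'
      exact (hf' ℝ τ x').1 hfx'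
    · refine (hf' ℚ_[2] (Rat.castHom ℚ_[2]) (j P)).1 ?_
      rw [hj, hP]
      simp
  have h5 : Ψ (Φ (x', j P)) ∈ closure (Pool.Agent.K6.H43.MZC.Diag f' j) := by
    refine map_mem_closure hΨ h4 ?_
    rintro _ ⟨⟨r, s⟩, hr, rfl⟩
    refine ⟨fun o => o.elim s r, ?_, ?_⟩
    · have e1 := hf' ℚ (RingHom.id ℚ) (fun o => o.elim s r)
      rw [MvPolynomial.map_id, MvPolynomial.map_id] at e1
      exact e1.2 hr
    · refine Prod.ext ?_ ?_
      · funext o
        rcases o with _ | a <;> rfl
      · funext o
        rcases o with _ | a <;> rfl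
  rwa [hΨΦ] at h5

/-- **The components of the closure of the set of the rational points of double covers of
products of projective spaces, outside of a divisor.** -/
theorem result (r : ℕ) (n d : Fin r → ℕ) (hn : ∀ i, 1 ≤ n i) (hd : ∀ i, d i = 2 ∨ d i = 4)
    (hk : ∃ k, d k = 2 ∨ 2 ≤ n k) (J : Type) [Finite J] (f : J → MvPolynomial (Vars n) ℚ)
    (hf : ∀ j, Admissible d (f j)) :
    ∃ N : J → MvPolynomial (Vars n) ℚ, (∀ j, N j ≠ 0) ∧
      ∀ (κ : Type) [Finite κ] (m : ℕ)
        (p : Fin m → MvPolynomial ((J × Option (Vars n)) ⊕ κ) ℚ)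
        (q : MvPolynomial ((J × Option (Vars n)) ⊕ κ) ℚ),
        Finite (ConnectedComponents ↥(closure (values (fun j => points (f j) (N j)) p q))) := by
  have h : ∀ j, ∃ N : MvPolynomial (Vars n) ℚ, N ≠ 0 ∧ OpenOutside (f j) N := fun j =>
    Pool.Agent.Results.MP_83e36b_nt.DoubleCoversOfProducts.result.1 ℚ r n d hn hd (f j)
      (hf j).degree (hf j).irreducible (hf j).smooth hk
  choose N hN hO using h
  refine ⟨N, hN, fun κ _ m p q => ?_⟩
  exact Pool.Agent.K6.H43.MZC.comp_values (fun j => points (f j) (N j))
    (fun j => sa_points _ _ (hO j)) m p q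

end Pool.Agent.Results.MP_4d3b00_ag.DoubleCoversOfProducts
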