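import Pool.Agent.Results.MP_83e36b_nt.QuadricBundlesOverProducts
import Pool.Agent.K6.H43.MZC.Gen

/-!
# Mazur's conjecture on the components of the closure of the rational points: quadric bundles over
# products of projective spaces with coefficients of degrees at most three

Let `X` be the hypersurface `∑ A_{kl}(u) z_k z_l = 0` of multidegree `(2; d₁, …, d_r)` in
`ℙᵃ × ℙ^{n₁} × … × ℙ^{n_r}` over `ℚ`, with `a ≥ 2`, `r ≥ 1` and `d_i ≤ 3`, for example of bidegree
`(2, 3)` in `ℙ² × ℙ²`. We suppose that it is general in the following sense (`Admissible`): the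
equation is irreducible, and for each `i` the flexes (if `d_i = 3`) or the tangent spaces (if
`d_i ≤ 2`) of the hypersurfaces `∑ A_{kl} z_k z_l = 0` in the `i`-th factor at a point `u` are not
constant, if `z` moves in the quadric over `u` (`MovingFlex`, `MovingTangent` of
`MP_83e36b_nt.QuadricBundlesOverProducts`).

**Theorem.** There is a polynomial `N` over `ℚ` which is not divisible by the equation, such that
Mazur's conjecture is true for the complement of `N = 0` in the cone over `X`, for all its open
subvarieties, and for their images under rational maps: the closure of the set of the values of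
rational functions `p₁/q, …, p_m/q` at its rational points has only finitely many connected
components. The same holds for the products of several such varieties and affine spaces. (With the
functions `z_k / z_0` and `u_{i,j} / u_{i,0}` one gets the affine charts of `X`, and with the
additional function `1 / g` their open subvarieties `g ≠ 0` as closed subvarieties of affine space.)

Method. By the theorem `MP_83e36b_nt.QuadricBundlesOverProducts` there is `N`, such that the closure of `X(ℚ)` in
`X(ℝ) × X(ℚ₂)` is open outside of `N = 0`. Let `V` be the complement of `N = 0` in the cone over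
`X`. So the closure `C` of `V(ℚ)` in `V(ℝ) × V(ℚ₂)` is open and closed. For a rational point `P` of
`V` the set of the real points `x` with `(x, P) ∈ C` is open and closed in `V(ℝ)` and contains `P`.
As `V(ℝ)` has only finitely many open and closed subsets, the closure of `V(ℚ)` in `V(ℝ)` is a
finite union of such sets: it is a union of connected components of `V(ℝ)`. In particular it is
semialgebraic over `ℚ` (`Pool.Agent.TH729.SQ`, helper729), and the theorem follows by means of the
theorem on the values of rational functions of the same library.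
-/

set_option autoImplicit false

namespace Pool.Agent.Results.MP_4d3b00_ag.QuadricBundlesOverProducts

open MvPolynomial Filter Topology Pool.Agent.Results.MP_83e36b_nt.QuadricBundlesOverProducts

/-- The conditions on the coefficients of the quadric bundle `∑ A_{kl}(u) z_k z_l = 0`: they are
symmetric, of the degree `d_i` in the variables of the `i`-th factor, the equation is irreducible,
and the flexes, for `d_i = 3`, or the tangent spaces, for `d_i ≤ 2`, are not fixed. -/
structure Admissible {a r : ℕ} {n : Fin r → ℕ} (d : Fin r → ℕ)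
    (A : Fin (a + 1) → Fin (a + 1) → MvPolynomial (Vars n) ℚ) : Prop where
  /-- the coefficients are symmetric -/
  symm : ∀ k l, A k l = A l k
  /-- they are multihomogeneous -/
  degree : ∀ k l, MultiHomogeneous d (A k l)
  /-- the equation is irreducible -/
  irreducible : Irreducible (equation A)
  /-- the flexes are not fixed -/
  flex : ∀ i, d i = 3 → MovingFlex A i
  /-- the tangent spaces are not fixed -/
  tangent : ∀ i, d i ≤ 2 → MovingTangent A i

/-- The rational points of the hypersurface `f = 0` outside of `N = 0`. -/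
def points {γ : Type} (f N : MvPolynomial γ ℚ) : Set (γ → ℚ) :=
  {P | OnHypersurface f P ∧ eval P N ≠ 0}

/-- The real points which are the values of the rational functions `p_k / q` at the points of the
product of the sets `D j` and of an affine space. -/
def values {J κ γ : Type} (D : J → Set (γ → ℚ)) {m : ℕ}
    (p : Fin m → MvPolynomial ((J × γ) ⊕ κ) ℚ) (q : MvPolynomial ((J × γ) ⊕ κ) ℚ) :
    Set (Fin m → ℝ) :=
  {y | ∃ (x : J → γ → ℚ) (t : κ → ℚ), (∀ j, x j ∈ D j) ∧
    eval (Sum.elim (fun c => x c.1 c.2) t) q ≠ 0 ∧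
    ∀ k, y k = ((eval (Sum.elim (fun c => x c.1 c.2) t) (p k) /
      eval (Sum.elim (fun c => x c.1 c.2) t) q : ℚ) : ℝ)}

lemma sa_points {γ : Type} [Finite γ] (f N : MvPolynomial γ ℚ) (h : OpenOutside f N) :
    Pool.Agent.H581R2.SA (closure (Pool.Agent.TH729.SQ.rl (points f N))) := by
  have hfact : Fact (Nat.Prime 2) := ⟨Nat.prime_two⟩
  let σ : Unit → ℚ →+* ℚ_[2] := fun _ => Rat.castHom ℚ_[2]
  let τ : ℚ →+* ℝ := Rat.castHom ℝ
  have hτ : ∀ (x : γ → ℝ) (g : MvPolynomial γ ℚ), eval x (map τ g) = aeval x g := by
    intro x g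
    rw [eval_map]
    rfl
  let j : (γ → ℚ) → (γ → ℚ_[2]) := fun P c => (P c : ℚ_[2])
  have hj : ∀ (P : γ → ℚ) (g : MvPolynomial γ ℚ),
      eval (j P) (map (Rat.castHom ℚ_[2]) g) = ((eval P g : ℚ) : ℚ_[2]) := by
    intro P g
    exact (MvPolynomial.map_eval (Rat.castHom ℚ_[2]) P g).symm
  refine Pool.Agent.K6.H43.MZC.sa_of_open f N j ?_
  intro x P hP hPN hxC hxN
  let Φ : (γ → ℝ) × (γ → ℚ_[2]) → (γ → ℝ) × (Unit → γ → ℚ_[2]) := fun s => (s.1, fun _ => s.2)
  let Ψ : (γ → ℝ) × (Unit → γ → ℚ_[2]) → (γ → ℝ) × (γ → ℚ_[2]) := fun s => (s.1, s.2 ())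
  have hΦ : Continuous Φ := by fun_prop
  have hΨ : Continuous Ψ := by fun_prop
  have h1 : Φ (x, j P) ∈ ClosureReal (p := fun _ : Unit => 2) f σ τ := by
    refine map_mem_closure hΦ hxC ?_
    rintro _ ⟨r, hr, rfl⟩
    exact ⟨r, hr, rfl⟩
  obtain ⟨U, hU, h2⟩ := (h Unit (fun _ => 2) (fun _ _ _ => rfl) σ).2 τ (Φ (x, j P)) h1
    (by rw [hτ]; exact hxN)
    (fun _ => by
      change eval (j P) (map (Rat.castHom ℚ_[2]) N) ≠ 0
      rw [hj]
      exact_mod_cast hPN)
  have h3 : ∀ᶠ x' in 𝓝 x, Φ (x', j P) ∈ U := by
    have hc : Continuous fun x' : γ → ℝ => Φ (x', j P) := by fun_prop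
    exact hc.continuousAt.eventually hU
  filter_upwards [h3] with x' hx' hf'
  have h4 : Φ (x', j P) ∈ ClosureReal (p := fun _ : Unit => 2) f σ τ := by
    refine h2 _ hx' ?_ fun _ => ?_
    · change eval x' (map τ f) = 0
      rw [hτ]
      exact hf'
    · change eval (j P) (map (Rat.castHom ℚ_[2]) f) = 0
      rw [hj, hP]
      simp
  have h5 : Ψ (Φ (x', j P)) ∈ closure (Pool.Agent.K6.H43.MZC.Diag f j) := by
    refine map_mem_closure hΨ h4 ?_
    rintro _ ⟨r, hr, rfl⟩
    exact ⟨r, hr, rfl⟩
  exact h5

/-- **The components of the closure of the set of the rational points of quadric bundles over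
products of projective spaces, outside of a divisor.** -/
theorem result (a r : ℕ) (n d : Fin r → ℕ) (ha : 2 ≤ a) (hr : 1 ≤ r) (hd : ∀ i, d i ≤ 3)
    (J : Type) [Finite J] (A : J → Fin (a + 1) → Fin (a + 1) → MvPolynomial (Vars n) ℚ)
    (hA : ∀ j, Admissible d (A j)) :
    ∃ N : J → MvPolynomial (Fin (a + 1) ⊕ Vars n) ℚ, (∀ j, ¬ equation (A j) ∣ N j) ∧
      ∀ (κ : Type) [Finite κ] (m : ℕ)
        (p : Fin m → MvPolynomial ((J × (Fin (a + 1) ⊕ Vars n)) ⊕ κ) ℚ)
        (q : MvPolynomial ((J × (Fin (a + 1) ⊕ Vars n)) ⊕ κ) ℚ),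
        Finite (ConnectedComponents ↥(closure
          (values (fun j => points (equation (A j)) (N j)) p q))) := by
  have h : ∀ j, ∃ N : MvPolynomial (Fin (a + 1) ⊕ Vars n) ℚ, ¬ equation (A j) ∣ N ∧
      OpenOutside (equation (A j)) N := fun j =>
    Pool.Agent.Results.MP_83e36b_nt.QuadricBundlesOverProducts.result ℚ a r n d ha hr hd (A j)
      (hA j).symm (hA j).degree (hA j).irreducible (hA j).flex (hA j).tangent
  choose N hN hO using h
  refine ⟨N, hN, fun κ _ m p q => ?_⟩
  exact Pool.Agent.K6.H43.MZC.comp_values (fun j => points (equation (A j)) (N j))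
    (fun j => sa_points _ _ (hO j)) m p q

end Pool.Agent.Results.MP_4d3b00_ag.QuadricBundlesOverProducts
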